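import Mathlib
import Pool.Agent.W627.LT.Stm

set_option autoImplicit false

open Finset

namespace Pool.Agent.W255.LT

open Pool.Agent.W627.LT

theorem pi_le (y : ℕ) : Nat.primeCounting y ≤ (PQ y).card + 1 := by
  classical
  have h : ((Finset.range (y + 1)).filter Nat.Prime) ⊆ insert 2 (PQ y) := by
    intro p hp
    rw [Finset.mem_filter, Finset.mem_range] at hp
    rw [Finset.mem_insert]
    by_cases h2 : p = 2
    · exact Or.inl h2
    · right
      unfold PQ
      rw [Finset.mem_filter, Finset.mem_Icc]
      have := hp.2.two_le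
      refine ⟨⟨by omega, by omega⟩, hp.2⟩
  have h1 : Nat.primeCounting y = ((Finset.range (y + 1)).filter Nat.Prime).card := by
    unfold Nat.primeCounting Nat.primeCounting'
    rw [Nat.count_eq_card_filter_range]
  rw [h1]
  exact (Finset.card_le_card h).trans (Finset.card_insert_le _ _)

theorem log_bd {y : ℝ} (hy : 100 ≤ y) : 2 * Real.log (y + 1) ≤ 0.193 * y := by
  have h1 : Real.log (y + 1) = Real.log ((y + 1) / 32) + Real.log 32 := by
    rw [Real.log_div (by linarith) (by norm_num)]
    ring
  have h2 : Real.log ((y + 1) / 32) ≤ (y + 1) / 32 - 1 :=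
    Real.log_le_sub_one_of_pos (by linarith)
  have h3 : Real.log 32 = 5 * Real.log 2 := by
    rw [show (32 : ℝ) = 2 ^ 5 by norm_num, Real.log_pow]
    norm_num
  have h4 := Real.log_two_lt_d9
  rw [h1, h3]
  linarith

theorem ltp : S_P := by
  refine ⟨100, ?_⟩
  intro y hy
  have hy' : (100 : ℝ) ≤ y := by exact_mod_cast hy
  have h1 := Chebyshev.psi_ge y
  have h2 := Chebyshev.psi_le_primeCounting_mul_log y
  have h3 : (Nat.primeCounting y : ℝ) ≤ (PQ y).card + 1 := by exact_mod_cast pi_le y
  have hlog : 0 < Real.log y := Real.log_pos (by linarith)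
  have h4 := log_bd hy'
  have h5 : Real.log y ≤ Real.log (y + 1) := Real.log_le_log (by linarith) (by linarith)
  have h6 : (Nat.primeCounting y : ℝ) * Real.log y ≤ ((PQ y).card + 1) * Real.log y :=
    mul_le_mul_of_nonneg_right h3 hlog.le
  have h7 := Real.log_two_gt_d9
  rw [div_le_iff₀ (by positivity)]
  have h8 : (y : ℝ) * Real.log 2 ≥ y * 0.693 :=
    mul_le_mul_of_nonneg_left (by linarith) (by linarith)
  nlinarith [h1, h2, h6, h8, h4, h5]

end Pool.Agent.W255.LT
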